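import Pool.Agent.OPH.StmtsB

/-!
# Row STA of squad OPH
-/

set_option autoImplicit false

namespace Pool.Agent.OPH.H87

open Finset Pool.Agent.OPG Pool.Agent.OPH

theorem log_three_ge : (1.01 : ℝ) ≤ Real.log 3 := by
  rw [Real.le_log_iff_exp_le (by norm_num)]
  have h1 : Real.exp 1 < 2.7182818286 := Real.exp_one_lt_d9
  have h2 : (-0.01 : ℝ) + 1 ≤ Real.exp (-0.01) := Real.add_one_le_exp _
  have h3 : Real.exp 0.01 * Real.exp (-0.01) = 1 := by
    rw [← Real.exp_add]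
    norm_num
  have h4 : Real.exp 1.01 = Real.exp 1 * Real.exp 0.01 := by
    rw [← Real.exp_add]
    norm_num
  have h5 : 0 < Real.exp 0.01 := Real.exp_pos _
  have h6 : Real.exp 0.01 ≤ 1.02 := by nlinarith
  have h7 : 0 < Real.exp 1 := Real.exp_pos _
  rw [h4]
  nlinarith

theorem sta : StaStmt := by
  intro c N h r hN hc0 hc hr hh
  by_contra hcon
  rw [not_or, not_le, not_le] at hcon
  obtain ⟨h1, h2⟩ := hcon
  have hNR : (1 : ℝ) ≤ (N : ℝ) := by exact_mod_cast hN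
  have hhpos : (0 : ℝ) < (h : ℝ) := by
    have : (0 : ℝ) < 100 * (N : ℝ) * r := by positivity
    linarith
  have hd : |PH c N h (3 * r) - PH c N h r| < 1 := by
    have := abs_sub (PH c N h (3 * r)) (PH c N h r)
    linarith
  have hrh : r / h ≤ 1 / (100 * N) := by
    rw [div_le_div_iff₀ hhpos (by positivity)]
    linarith
  have hsum : PH c N h (3 * r) - PH c N h r =
      ∑ j ∈ range N, (c j : ℝ) * (Real.log (3 * r + 2 * h * j) - Real.log (r + 2 * h * j)) := by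
    unfold PH
    rw [← sum_sub_distrib]
    exact sum_congr rfl fun j _ => by ring
  obtain ⟨K, rfl⟩ : ∃ K, N = K + 1 := ⟨N - 1, by omega⟩
  rw [sum_range_succ'] at hsum
  have h0 : (c 0 : ℝ) * (Real.log (3 * r + 2 * h * ((0 : ℕ) : ℝ)) -
      Real.log (r + 2 * h * ((0 : ℕ) : ℝ))) = c 0 * Real.log 3 := by
    rw [Nat.cast_zero, mul_zero, add_zero, add_zero, Real.log_mul (by norm_num) (by positivity)]
    ring
  rw [h0] at hsum
  have hterm : ∀ j ∈ range K, |(c (j + 1) : ℝ) * (Real.log (3 * r + 2 * h * ((j + 1 : ℕ) : ℝ)) -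
      Real.log (r + 2 * h * ((j + 1 : ℕ) : ℝ)))| ≤ 1 / (100 * ((K + 1 : ℕ) : ℝ)) := by
    intro j _
    have hj : (1 : ℝ) ≤ ((j + 1 : ℕ) : ℝ) := by
      push_cast
      have : (0 : ℝ) ≤ (j : ℝ) := Nat.cast_nonneg j
      linarith
    have hcj : |(c (j + 1) : ℝ)| ≤ 1 := by exact_mod_cast hc (j + 1)
    have hden : 0 < r + 2 * h * ((j + 1 : ℕ) : ℝ) := by positivity
    have hnum : 0 < 3 * r + 2 * h * ((j + 1 : ℕ) : ℝ) := by positivity
    have hlow : 0 ≤ Real.log (3 * r + 2 * h * ((j + 1 : ℕ) : ℝ)) -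
        Real.log (r + 2 * h * ((j + 1 : ℕ) : ℝ)) := by
      rw [sub_nonneg]
      exact Real.log_le_log hden (by linarith)
    have hup : Real.log (3 * r + 2 * h * ((j + 1 : ℕ) : ℝ)) -
        Real.log (r + 2 * h * ((j + 1 : ℕ) : ℝ)) ≤ r / h := by
      rw [← Real.log_div hnum.ne' hden.ne']
      refine (Real.log_le_sub_one_of_pos (by positivity)).trans ?_
      rw [div_sub_one hden.ne', div_le_div_iff₀ hden hhpos]
      nlinarith [mul_le_mul_of_nonneg_left hj (show (0 : ℝ) ≤ 2 * h * r by positivity),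
        mul_pos (show (0 : ℝ) < r by linarith) (show (0 : ℝ) < r by linarith)]
    rw [abs_mul, abs_of_nonneg hlow]
    calc |(c (j + 1) : ℝ)| * (Real.log (3 * r + 2 * h * ((j + 1 : ℕ) : ℝ)) -
          Real.log (r + 2 * h * ((j + 1 : ℕ) : ℝ)))
        ≤ 1 * (r / h) := mul_le_mul hcj hup hlow (by norm_num)
      _ ≤ 1 / (100 * ((K + 1 : ℕ) : ℝ)) := by rw [one_mul]; exact hrh
  have habs : |∑ j ∈ range K, (c (j + 1) : ℝ) * (Real.log (3 * r + 2 * h * ((j + 1 : ℕ) : ℝ)) -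
      Real.log (r + 2 * h * ((j + 1 : ℕ) : ℝ)))| ≤ 1 / 100 := by
    refine (abs_sum_le_sum_abs _ _).trans ?_
    refine (sum_le_sum hterm).trans ?_
    rw [sum_const, card_range, nsmul_eq_mul, mul_one_div, div_le_div_iff₀ (by positivity)
      (by norm_num)]
    push_cast
    have : (0 : ℝ) ≤ (K : ℝ) := Nat.cast_nonneg K
    linarith
  have hc0' : (1 : ℝ) ≤ |(c 0 : ℝ)| := by exact_mod_cast Int.one_le_abs hc0
  have hlog := log_three_ge
  have hbig : 1.01 ≤ |(c 0 : ℝ) * Real.log 3| := by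
    rw [abs_mul, abs_of_nonneg (by linarith : (0 : ℝ) ≤ Real.log 3)]
    nlinarith
  have htri : |(c 0 : ℝ) * Real.log 3| ≤ |PH c (K + 1) h (3 * r) - PH c (K + 1) h r| +
      |∑ j ∈ range K, (c (j + 1) : ℝ) * (Real.log (3 * r + 2 * h * ((j + 1 : ℕ) : ℝ)) -
      Real.log (r + 2 * h * ((j + 1 : ℕ) : ℝ)))| := by
    have h9 : (c 0 : ℝ) * Real.log 3 = (PH c (K + 1) h (3 * r) - PH c (K + 1) h r) -
        ∑ j ∈ range K, (c (j + 1) : ℝ) * (Real.log (3 * r + 2 * h * ((j + 1 : ℕ) : ℝ)) -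
        Real.log (r + 2 * h * ((j + 1 : ℕ) : ℝ))) := by
      rw [hsum]
      ring
    rw [h9]
    exact abs_sub _ _
  linarith

end Pool.Agent.OPH.H87
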